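import Pool.Agent.Q271.SA.Girth

set_option autoImplicit false

/-!
# MP_8cd00c: large girth does not force the strong arboricity to equal the arboricity
-/

namespace Pool.Agent.Results.MP_8cd00c_co.LargeGirth

open Pool.Agent.Q271.SA

/-- **MP_8cd00c, negative answer.** For every `k ≥ 2` and every `g` there is a finite graph `G` of
girth at least `g` with `arb(G) ≤ k` and `ζ(G) ≥ k + 1`. -/
theorem result (k g : ℕ) (hk : 2 ≤ k) :
    ∃ (V : Type) (_ : Fintype V) (G : SimpleGraph V), (g : ℕ∞) ≤ G.egirth ∧ arb G ≤ k ∧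
      k + 1 ≤ zeta G := by
  obtain ⟨V, hV, G, h1, h2, h3⟩ := Gir.main k g hk
  exact ⟨V, hV, G, h3, h1, h2⟩

end Pool.Agent.Results.MP_8cd00c_co.LargeGirth
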